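import Pool.Agent.H78.CUR.Stmts

/-!
Module R2: addition of real numbers in a model of ZF with standard natural numbers.
-/

set_option linter.unusedVariables false
set_option synthInstance.maxSize 100000

namespace CUR

open SW

section

variable {N : Type} [SetStr N] [ZF N]

theorem r2_trr_iff {x y z R : N} : Trr x y z R ↔ E (opair x (opair y z)) R := by
  unfold Trr
  constructor
  · rintro ⟨p, hp, h⟩
    rw [isOP_iff] at hp
    subst hp
    exact pairIn_iff.1 h
  · intro h
    exact ⟨_, isOP_iff.2 rfl, pairIn_iff.2 h⟩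

/-- the sum of two cuts -/
noncomputable def r2_addS (c : Codes N) (x y : N) : N :=
  sep om (fun k : N => ∃ i j : N, E i x ∧ E j y ∧ Trr i j k c.ad)

theorem r2_mem_addS (c : Codes N) (x y k : N) : E k (r2_addS c x y) ↔ E k om ∧
    ∃ i j : N, E i x ∧ E j y ∧ Trr i j k c.ad := by
  unfold r2_addS; exact mem_sep' inferInstance

theorem r2_addS_cut (hNU : NUStmt) (c : Codes N) {x y : N} {r s : ℝ} (hx : IsCutOf x r)
    (hy : IsCutOf y s) : IsCutOf (r2_addS c x y) (r + s) := by
  refine ⟨fun z hz => ((r2_mem_addS c x y z).1 hz).1, fun k => ?_⟩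
  rw [r2_mem_addS]
  constructor
  · rintro ⟨_, i, j, hi, hj, h⟩
    obtain ⟨i, rfl⟩ := c.std i (hx.1 i hi)
    obtain ⟨j, rfl⟩ := c.std j (hy.1 j hj)
    rw [r2_trr_iff, c.had] at h
    have h1 := (hx.2 i).1 hi
    have h2 := (hy.2 j).1 hj
    have h3 : (qq k : ℝ) ≤ (qq i : ℝ) + (qq j : ℝ) := by exact_mod_cast h
    linarith
  · intro h
    refine ⟨(hNU N).1 k, ?_⟩
    obtain ⟨a, ha1, ha2⟩ := exists_rat_btwn (show (qq k : ℝ) - s < r by linarith)
    obtain ⟨i, hi⟩ := qq_surj a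
    obtain ⟨j, hj⟩ := qq_surj (qq k - a)
    refine ⟨nu i, nu j, (hx.2 i).2 (by rw [hi]; exact ha2), (hy.2 j).2 ?_, ?_⟩
    · rw [hj]
      push_cast
      linarith
    · rw [r2_trr_iff, c.had, hi, hj]
      linarith

theorem cur_r2 (hNU : NUStmt) (hR1 : R1Stmt) : R2Stmt := by
  intro N _ _ c
  obtain ⟨z0, hz0⟩ := qq_surj 0
  refine ⟨?_, ?_, ?_, ?_, ?_, ?_⟩
  · intro x y r s hx hy
    exact ⟨_, r2_addS_cut hNU c hx hy⟩
  · intro x y z r s hx hy
    have h1 := r2_addS_cut hNU c hx hy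
    have h2 : AddU c.ad om x y z ↔ z = r2_addS c x y := by
      unfold AddU
      rw [ext_iff']
      exact forall_congr' fun k => by rw [r2_mem_addS]
    rw [h2]
    constructor
    · rintro rfl; exact h1
    · intro h3
      exact (hR1 N c).uniq _ _ _ h3 h1
  · intro x r hx
    have hm : ∀ k, E k (sep om (fun k : N => ∃ i : N, E i om ∧ ¬ E i x ∧
        ¬ E (opair i (opair k (nu z0))) c.ad)) ↔ E k om ∧ ∃ i : N, E i om ∧ ¬ E i x ∧
        ¬ E (opair i (opair k (nu z0))) c.ad := fun k => mem_sep' inferInstance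
    refine ⟨sep om (fun k : N => ∃ i : N, E i om ∧ ¬ E i x ∧
        ¬ E (opair i (opair k (nu z0))) c.ad), fun z hz => ((hm z).1 hz).1, fun k => ?_⟩
    rw [hm]
    constructor
    · rintro ⟨_, i, hi, hix, h⟩
      obtain ⟨i, rfl⟩ := c.std i hi
      rw [c.had, hz0, not_le] at h
      rw [hx.2 i, not_lt] at hix
      have h3 : (qq i : ℝ) + (qq k : ℝ) < 0 := by exact_mod_cast h
      linarith
    · intro h
      refine ⟨(hNU N).1 k, ?_⟩
      obtain ⟨a, ha1, ha2⟩ := exists_rat_btwn (show r < -(qq k : ℝ) by linarith)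
      obtain ⟨i, hi⟩ := qq_surj a
      refine ⟨nu i, (hNU N).1 i, ?_, ?_⟩
      · rw [hx.2 i, hi, not_lt]
        exact ha1.le
      · rw [c.had, hz0, hi, not_le]
        have h3 : (a : ℝ) + (qq k : ℝ) < 0 := by linarith
        exact_mod_cast h3
  · intro q
    obtain ⟨j, hj⟩ := qq_surj q
    have hm : ∀ k, E k (sep om (fun k : N => E (opair k (nu j)) c.lt)) ↔ E k om ∧
      E (opair k (nu j)) c.lt := fun k => mem_sep' inferInstance
    refine ⟨sep om (fun k : N => E (opair k (nu j)) c.lt), fun z hz => ((hm z).1 hz).1,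
      fun k => ?_⟩
    rw [hm, c.hlt, hj]
    constructor
    · rintro ⟨_, h⟩
      exact_mod_cast h
    · intro h
      exact ⟨(hNU N).1 k, by exact_mod_cast h⟩
  · infer_instance
  · intro n
    have hm : ∀ k, E k (sep om (fun j : N => E (opair (nu n) j) c.hc)) ↔ E k om ∧
      E (opair (nu n) k) c.hc := fun k => mem_sep' inferInstance
    refine ⟨fun z hz => ((hm z).1 hz).1, fun k => ?_⟩
    rw [hm, c.hhc]
    exact ⟨fun h => h.2, fun h => ⟨(hNU N).1 k, h⟩⟩

end

end CUR
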