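import Pool.Agent.H78.CUR.Stmts
import Mathlib.Topology.MetricSpace.Pseudo.Constructions
import Mathlib.Topology.Order.OrderClosed

/-!
Module R3: multiplication of real numbers in a model of ZF with standard natural numbers.
-/

set_option linter.unusedVariables false
set_option synthInstance.maxSize 100000

namespace CUR

open SW

/-- a box around a point where the product is large -/
theorem r3_box {r s : ℝ} {q : ℚ} (h : (q : ℝ) < r * s) : ∃ a0 a1 b0 b1 : ℚ,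
    (a0 : ℝ) < r ∧ r ≤ a1 ∧ (b0 : ℝ) < s ∧ s ≤ b1 ∧
    ∀ a b : ℝ, (a0 : ℝ) < a → a ≤ a1 → (b0 : ℝ) < b → b ≤ b1 → (q : ℝ) < a * b := by
  have ho : IsOpen {p : ℝ × ℝ | (q : ℝ) < p.1 * p.2} :=
    isOpen_lt continuous_const (continuous_fst.mul continuous_snd)
  obtain ⟨ε, hε, hb⟩ := Metric.isOpen_iff.1 ho (r, s) h
  obtain ⟨a0, ha0, ha0'⟩ := exists_rat_btwn (show r - ε < r by linarith)
  obtain ⟨a1, ha1, ha1'⟩ := exists_rat_btwn (show r < r + ε by linarith)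
  obtain ⟨b0, hb0, hb0'⟩ := exists_rat_btwn (show s - ε < s by linarith)
  obtain ⟨b1, hb1, hb1'⟩ := exists_rat_btwn (show s < s + ε by linarith)
  refine ⟨a0, a1, b0, b1, ha0', ha1.le, hb0', hb1.le, fun a b h1 h2 h3 h4 => ?_⟩
  have : ((a, b) : ℝ × ℝ) ∈ Metric.ball (r, s) ε := by
    rw [Metric.mem_ball, Prod.dist_eq, max_lt_iff, Real.dist_eq, Real.dist_eq, abs_lt, abs_lt]
    refine ⟨⟨?_, ?_⟩, ⟨?_, ?_⟩⟩ <;> simp only <;> linarith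
  exact hb this

/-- an interval around a point where the inverse is large -/
theorem r3_int {r : ℝ} (hr : r ≠ 0) {q : ℚ} (h : (q : ℝ) < r⁻¹) : ∃ a0 a1 : ℚ,
    (a0 : ℝ) < r ∧ r ≤ a1 ∧ ∀ a : ℝ, (a0 : ℝ) < a → a ≤ a1 → (q : ℝ) < a⁻¹ := by
  have hc : ContinuousAt (fun x : ℝ => x⁻¹) r := continuousAt_inv₀ hr
  have hm : {x : ℝ | (q : ℝ) < x⁻¹} ∈ nhds r := hc.eventually (lt_mem_nhds h)
  obtain ⟨ε, hε, hb⟩ := Metric.mem_nhds_iff.1 hm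
  obtain ⟨a0, ha0, ha0'⟩ := exists_rat_btwn (show r - ε < r by linarith)
  obtain ⟨a1, ha1, ha1'⟩ := exists_rat_btwn (show r < r + ε by linarith)
  refine ⟨a0, a1, ha0', ha1.le, fun a h1 h2 => ?_⟩
  have : a ∈ Metric.ball r ε := by
    rw [Metric.mem_ball, Real.dist_eq, abs_lt]
    constructor <;> linarith
  exact hb this

section

variable {N : Type} [SetStr N] [ZF N]

theorem r3_tup5 {a b d e f : ℕ} : tupv 4 (fun i => nu ((![a, b, d, e, f] : Fin 5 → ℕ) i)) =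
    opair (nu a : N) (opair (nu b) (opair (nu d) (opair (nu e) (nu f)))) := rfl

theorem r3_tup3 {a b d : ℕ} : tupv 2 (fun i => nu ((![a, b, d] : Fin 3 → ℕ) i)) =
    opair (nu a : N) (opair (nu b) (nu d)) := rfl

/-- the product of two cuts -/
noncomputable def r3_mulS (c : Codes N) (x y : N) : N :=
  sep om (fun k : N => ∃ i0 i1 j0 j1 : N, E i0 x ∧ (E i1 om ∧ ¬ E i1 x) ∧ E j0 y ∧
    (E j1 om ∧ ¬ E j1 y) ∧ E (opair i0 (opair i1 (opair j0 (opair j1 k)))) c.mu)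

theorem r3_mem_mulS (c : Codes N) (x y k : N) : E k (r3_mulS c x y) ↔ E k om ∧
    ∃ i0 i1 j0 j1 : N, E i0 x ∧ (E i1 om ∧ ¬ E i1 x) ∧ E j0 y ∧
    (E j1 om ∧ ¬ E j1 y) ∧ E (opair i0 (opair i1 (opair j0 (opair j1 k)))) c.mu := by
  unfold r3_mulS; exact mem_sep' inferInstance

theorem r3_mulS_cut (hNU : NUStmt) (c : Codes N) {x y : N} {r s : ℝ} (hx : IsCutOf x r)
    (hy : IsCutOf y s) : IsCutOf (r3_mulS c x y) (r * s) := by
  refine ⟨fun z hz => ((r3_mem_mulS c x y z).1 hz).1, fun k => ?_⟩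
  rw [r3_mem_mulS]
  constructor
  · rintro ⟨_, i0, i1, j0, j1, hi0, ⟨hi1, hi1'⟩, hj0, ⟨hj1, hj1'⟩, h⟩
    obtain ⟨i0, rfl⟩ := c.std i0 (hx.1 i0 hi0)
    obtain ⟨i1, rfl⟩ := c.std i1 hi1
    obtain ⟨j0, rfl⟩ := c.std j0 (hy.1 j0 hj0)
    obtain ⟨j1, rfl⟩ := c.std j1 hj1
    rw [hx.2] at hi0 hi1'
    rw [hy.2] at hj0 hj1'
    rw [not_lt] at hi1' hj1'
    rw [← r3_tup5, c.hmu] at h
    exact h r s hi0 hi1' hj0 hj1'
  · intro h
    refine ⟨(hNU N).1 k, ?_⟩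
    obtain ⟨a0, a1, b0, b1, h1, h2, h3, h4, h5⟩ := r3_box h
    obtain ⟨i0, rfl⟩ := qq_surj a0
    obtain ⟨i1, rfl⟩ := qq_surj a1
    obtain ⟨j0, rfl⟩ := qq_surj b0
    obtain ⟨j1, rfl⟩ := qq_surj b1
    refine ⟨nu i0, nu i1, nu j0, nu j1, (hx.2 i0).2 h1, ⟨(hNU N).1 i1, ?_⟩, (hy.2 j0).2 h3,
      ⟨(hNU N).1 j1, ?_⟩, ?_⟩
    · rw [hx.2, not_lt]; exact h2
    · rw [hy.2, not_lt]; exact h4
    · rw [← r3_tup5, c.hmu]
      exact h5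

/-- the inverse of a cut -/
noncomputable def r3_invS (c : Codes N) (x : N) : N :=
  sep om (fun k : N => ∃ i0 i1 : N, E i0 x ∧ (E i1 om ∧ ¬ E i1 x) ∧
    E (opair i0 (opair i1 k)) c.iv)

theorem r3_mem_invS (c : Codes N) (x k : N) : E k (r3_invS c x) ↔ E k om ∧
    ∃ i0 i1 : N, E i0 x ∧ (E i1 om ∧ ¬ E i1 x) ∧ E (opair i0 (opair i1 k)) c.iv := by
  unfold r3_invS; exact mem_sep' inferInstance

theorem r3_invS_cut (hNU : NUStmt) (c : Codes N) {x : N} {r : ℝ} (hr : r ≠ 0)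
    (hx : IsCutOf x r) : IsCutOf (r3_invS c x) r⁻¹ := by
  refine ⟨fun z hz => ((r3_mem_invS c x z).1 hz).1, fun k => ?_⟩
  rw [r3_mem_invS]
  constructor
  · rintro ⟨_, i0, i1, hi0, ⟨hi1, hi1'⟩, h⟩
    obtain ⟨i0, rfl⟩ := c.std i0 (hx.1 i0 hi0)
    obtain ⟨i1, rfl⟩ := c.std i1 hi1
    rw [hx.2] at hi0 hi1'
    rw [not_lt] at hi1'
    rw [← r3_tup3, c.hiv] at h
    exact h r hi0 hi1'
  · intro h
    refine ⟨(hNU N).1 k, ?_⟩
    obtain ⟨a0, a1, h1, h2, h5⟩ := r3_int hr h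
    obtain ⟨i0, rfl⟩ := qq_surj a0
    obtain ⟨i1, rfl⟩ := qq_surj a1
    refine ⟨nu i0, nu i1, (hx.2 i0).2 h1, ⟨(hNU N).1 i1, ?_⟩, ?_⟩
    · rw [hx.2, not_lt]; exact h2
    · rw [← r3_tup3, c.hiv]
      exact h5

theorem cur_r3 (hNU : NUStmt) (hR1 : R1Stmt) : R3Stmt := by
  intro N _ _ c
  refine ⟨?_, ?_, ?_⟩
  · intro x y r s hx hy
    exact ⟨_, r3_mulS_cut hNU c hx hy⟩
  · intro x r hx
    by_cases hr : r = 0
    · subst hr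
      exact ⟨x, by rw [inv_zero]; exact hx⟩
    · exact ⟨_, r3_invS_cut hNU c hr hx⟩
  · have h1 : Cl3 (fun x y z : N => CutU c.lt om x ∧ CutU c.lt om y ∧ z = r3_mulS c x y) := by
      unfold r3_mulS; infer_instance
    refine h1.congr fun v => ?_
    show (∃ r s, IsCutOf (v 0) r ∧ IsCutOf (v 1) s ∧ IsCutOf (v 2) (r * s)) ↔
      (CutU c.lt om (v 0) ∧ CutU c.lt om (v 1) ∧ v 2 = r3_mulS c (v 0) (v 1))
    rw [(hR1 N c).cut, (hR1 N c).cut]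
    constructor
    · rintro ⟨r, s, hr, hs, h⟩
      exact ⟨⟨r, hr⟩, ⟨s, hs⟩, (hR1 N c).uniq _ _ _ h (r3_mulS_cut hNU c hr hs)⟩
    · rintro ⟨⟨r, hr⟩, ⟨s, hs⟩, h⟩
      exact ⟨r, s, hr, hs, by rw [h]; exact r3_mulS_cut hNU c hr hs⟩

end

end CUR
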