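import Pool.Agent.H78.CUR.Stmts
import Mathlib.Algebra.Field.Subfield.Basic
import Mathlib.Algebra.Field.TransferInstance
import Mathlib.Algebra.Order.Ring.InjSurj
import Mathlib.Algebra.Order.Field.Subfield

/-!
Module R4: a real line exists.
-/

set_option linter.unusedVariables false
set_option synthInstance.maxSize 100000

namespace CUR

open SW

theorem r4_tri {N : Type} [SetStr N] [ZF N] {x y z R : N} :
    Tri x y z R ↔ E (opair (opair x y) z) R := by
  unfold Tri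
  constructor
  · rintro ⟨p, hp, h⟩
    rw [isOP_iff] at hp
    subst hp
    exact pairIn_iff.1 h
  · intro h
    exact ⟨_, isOP_iff.2 rfl, pairIn_iff.2 h⟩

/-- the field of all real numbers whose cuts are in `N` -/
noncomputable def r4_S {N : Type} [SetStr N] [ZF N] {c : Codes N} (f2 : R2Facts c)
    (f3 : R3Facts c) : Subfield ℝ where
  carrier := {r | ∃ x : N, IsCutOf x r}
  mul_mem' := by
    rintro a b ⟨x, hx⟩ ⟨y, hy⟩
    exact f3.mul x y a b hx hy
  one_mem' := by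
    have := f2.rat 1
    simpa using this
  add_mem' := by
    rintro a b ⟨x, hx⟩ ⟨y, hy⟩
    exact f2.add x y a b hx hy
  zero_mem' := by
    have := f2.rat 0
    simpa using this
  neg_mem' := by
    rintro a ⟨x, hx⟩
    exact f2.neg x a hx
  inv_mem' := by
    rintro a ⟨x, hx⟩
    exact f3.inv x a hx

theorem cur_r4 (hR1 : R1Stmt) (hR2 : R2Stmt) (hR3 : R3Stmt) : R4Stmt := by
  intro N _ _ c
  have f1 := hR1 N c
  have f2 := hR2 N c
  have f3 := hR3 N c
  let φ : {x : N // E x (KS c)} → ℝ := fun x => Classical.choose ((f1.memK x.1).1 x.2)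
  have hφ : ∀ x, IsCutOf x.1 (φ x) := fun x => Classical.choose_spec ((f1.memK x.1).1 x.2)
  have hinj : ∀ x y, φ x = φ y → x = y := fun x y h => by
    refine Subtype.ext (f1.uniq x.1 y.1 (φ y) ?_ (hφ y))
    rw [← h]; exact hφ x
  let e : {x : N // E x (KS c)} ≃ r4_S f2 f3 := Equiv.ofBijective
    (fun x => ⟨φ x, x.1, hφ x⟩) ⟨fun x y h => hinj x y (congrArg Subtype.val h), fun y => by
      obtain ⟨r, x, hx⟩ := y
      refine ⟨⟨x, (f1.memK x).2 ⟨r, hx⟩⟩, Subtype.ext ?_⟩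
      exact f1.uniqr x _ _ (hφ ⟨x, (f1.memK x).2 ⟨r, hx⟩⟩) hx⟩
  have he : ∀ x, ((e x : r4_S f2 f3) : ℝ) = φ x := fun x => rfl
  let fld : Field {x : N // E x (KS c)} := e.field
  let lo : LinearOrder {x : N // E x (KS c)} := LinearOrder.lift' e e.injective
  have e0 : e 0 = 0 := e.apply_symm_apply 0
  have e1 : e 1 = 1 := e.apply_symm_apply 1
  have ea : ∀ x y, e (x + y) = e x + e y := fun x y => e.apply_symm_apply _
  have em : ∀ x y, e (x * y) = e x * e y := fun x y => e.apply_symm_apply _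
  have ele : ∀ {x y}, e x ≤ e y ↔ x ≤ y := fun {x y} => Iff.rfl
  have elt : ∀ {x y}, e x < e y ↔ x < y := fun {x y} => Iff.rfl
  have sor : IsStrictOrderedRing {x : N // E x (KS c)} :=
    Function.Injective.isStrictOrderedRing e e0 e1 ea em ele elt
  have hle : ∀ x y : {x : N // E x (KS c)}, x ≤ y ↔ φ x ≤ φ y := fun x y => Iff.rfl
  have hlt : ∀ x y : {x : N // E x (KS c)}, x < y ↔ φ x < φ y := fun x y => Iff.rfl
  have hadd : ∀ x y, φ (x + y) = φ x + φ y := fun x y => by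
    rw [← he, ea]; rfl
  have hmul : ∀ x y, φ (x * y) = φ x * φ y := fun x y => by
    rw [← he, em]; rfl
  have hR : Cl3 (fun x y z : N => ∃ r s, IsCutOf x r ∧ IsCutOf y s ∧ IsCutOf z (r * s)) := f3.mulD
  obtain ⟨R, hRdef⟩ : ∃ R : N → N → N → Prop,
      R = fun x y z : N => ∃ r s, IsCutOf x r ∧ IsCutOf y s ∧ IsCutOf z (r * s) := ⟨_, rfl⟩
  have hR' : Cl3 R := by rw [hRdef]; exact hR
  have m1 : ∀ p : N, E p (sep (prod (prod (KS c) (KS c)) (KS c)) (fun p : N => ∃ x y z : N,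
      p = opair (opair x y) z ∧ AddU c.ad om x y z)) ↔ E p (prod (prod (KS c) (KS c)) (KS c)) ∧
      ∃ x y z : N, p = opair (opair x y) z ∧ AddU c.ad om x y z := fun p => mem_sep' inferInstance
  have m2 : ∀ p : N, E p (sep (prod (prod (KS c) (KS c)) (KS c)) (fun p : N => ∃ x y z : N,
      p = opair (opair x y) z ∧ R x y z)) ↔ E p (prod (prod (KS c) (KS c)) (KS c)) ∧
      ∃ x y z : N, p = opair (opair x y) z ∧ R x y z := fun p => mem_sep' inferInstance
  have m3 : ∀ p : N, E p (sep (prod (KS c) (KS c)) (fun p : N => ∃ x y : N,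
      p = opair x y ∧ ∃ z : N, E z y ∧ ¬ E z x)) ↔ E p (prod (KS c) (KS c)) ∧
      ∃ x y : N, p = opair x y ∧ ∃ z : N, E z y ∧ ¬ E z x := fun p => mem_sep' inferInstance
  refine ⟨{
    ad := sep (prod (prod (KS c) (KS c)) (KS c)) (fun p : N => ∃ x y z : N,
      p = opair (opair x y) z ∧ AddU c.ad om x y z)
    mu := sep (prod (prod (KS c) (KS c)) (KS c)) (fun p : N => ∃ x y z : N,
      p = opair (opair x y) z ∧ R x y z)
    lt := sep (prod (KS c) (KS c)) (fun p : N => ∃ x y : N,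
      p = opair x y ∧ ∃ z : N, E z y ∧ ¬ E z x)
    fld := fld
    lo := lo
    sor := sor
    had := ?_
    hmu := ?_
    hlt := ?_
    lub := ?_
    φ := φ
    cut := hφ
    φadd := hadd
    φlt := hlt }⟩
  · intro a b d
    rw [r4_tri, m1, mem_prod, mem_prod]
    constructor
    · rintro ⟨_, x, y, z, h, h'⟩
      rw [opair_inj, opair_inj] at h
      obtain ⟨⟨rfl, rfl⟩, rfl⟩ := h
      rw [f2.addU _ _ _ _ _ (hφ a) (hφ b)] at h'
      refine hinj _ _ ?_
      rw [hadd]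
      exact f1.uniqr _ _ _ h' (hφ d)
    · rintro rfl
      refine ⟨⟨⟨a.2, b.2⟩, (a + b).2⟩, a.1, b.1, (a + b).1, rfl, ?_⟩
      rw [f2.addU _ _ _ _ _ (hφ a) (hφ b), ← hadd]
      exact hφ _
  · intro a b d
    rw [r4_tri, m2, mem_prod, mem_prod]
    constructor
    · rintro ⟨_, x, y, z, h, h'⟩
      rw [opair_inj, opair_inj] at h
      obtain ⟨⟨rfl, rfl⟩, rfl⟩ := h
      rw [hRdef] at h'
      obtain ⟨r, s, h1, h2, h3⟩ := h'
      refine hinj _ _ ?_
      rw [hmul, f1.uniqr _ _ _ (hφ a) h1, f1.uniqr _ _ _ (hφ b) h2]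
      exact f1.uniqr _ _ _ h3 (hφ d)
    · rintro rfl
      refine ⟨⟨⟨a.2, b.2⟩, (a * b).2⟩, a.1, b.1, (a * b).1, rfl, ?_⟩
      rw [hRdef]
      refine ⟨φ a, φ b, hφ a, hφ b, ?_⟩
      rw [← hmul]
      exact hφ _
  · intro a b
    rw [pairIn_iff, m3, mem_prod, hlt, f1.lt _ _ _ _ (hφ a) (hφ b)]
    constructor
    · rintro ⟨_, x, y, h, h'⟩
      rw [opair_inj] at h
      obtain ⟨rfl, rfl⟩ := h
      exact h'
    · intro h
      exact ⟨⟨a.2, b.2⟩, a.1, b.1, rfl, h⟩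
  · rintro A ⟨a0, ha0⟩ ⟨b0, hb0⟩
    have hmem : ∀ r, (∃ z, E z (inter A (KS c)) ∧ IsCutOf z r) ↔
        ∃ a : {x : N // E x (KS c)}, E a.1 A ∧ φ a = r := by
      intro r
      constructor
      · rintro ⟨z, hz, hr⟩
        rw [mem_inter] at hz
        exact ⟨⟨z, hz.2⟩, hz.1, f1.uniqr _ _ _ (hφ ⟨z, hz.2⟩) hr⟩
      · rintro ⟨a, ha, rfl⟩
        exact ⟨a.1, by rw [mem_inter]; exact ⟨ha, a.2⟩, hφ a⟩
    have hne : ({r | ∃ z, E z (inter A (KS c)) ∧ IsCutOf z r} : Set ℝ).Nonempty :=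
      ⟨φ a0, (hmem _).2 ⟨a0, ha0, rfl⟩⟩
    have hbd : BddAbove ({r | ∃ z, E z (inter A (KS c)) ∧ IsCutOf z r} : Set ℝ) := by
      refine ⟨φ b0, fun r hr => ?_⟩
      obtain ⟨a, ha, rfl⟩ := (hmem r).1 hr
      exact (hle _ _).1 (hb0 a ha)
    have hs := Real.isLUB_sSup hne hbd
    have hc := f1.sup (inter A (KS c)) _ (fun z hz => by
      rw [mem_inter] at hz
      exact (f1.memK z).1 hz.2) hs
    have hK : E (sUn (inter A (KS c))) (KS c) := (f1.memK _).2 ⟨_, hc⟩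
    have hv : φ ⟨_, hK⟩ = sSup ({r | ∃ z, E z (inter A (KS c)) ∧ IsCutOf z r} : Set ℝ) :=
      f1.uniqr _ _ _ (hφ ⟨_, hK⟩) hc
    refine ⟨⟨_, hK⟩, ?_, ?_⟩
    · intro a ha
      rw [hle, hv]
      exact hs.1 ((hmem _).2 ⟨a, ha, rfl⟩)
    · intro b hb
      rw [hle, hv]
      refine hs.2 fun r hr => ?_
      obtain ⟨a, ha, rfl⟩ := (hmem r).1 hr
      exact (hle _ _).1 (hb ha)

end CUR
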